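import Pool.Agent.N753.AC.Stm

/-!
# The part of the different above one prime
-/

set_option autoImplicit false

namespace Pool.Agent.N747.AC

open NumberField IsDedekindDomain UniqueFactorizationMonoid

attribute [local instance] FractionRing.liftAlgebra FractionRing.isScalarTower_liftAlgebra

section

variable {K : Type} [Field K] [NumberField K]

theorem mk_eq (v : HeightOneSpectrum (𝓞 K)) (x : K) : FinitePlace.mk v x =
    ((WithZeroMulInt.toNNReal (HeightOneSpectrum.absNorm_ne_zero v) (v.valuation K x) : NNReal) :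
      ℝ) := by
  rw [FinitePlace.mk_apply, FinitePlace.norm_embedding']

theorem val_le_one {v : HeightOneSpectrum (𝓞 K)} {x : K} (h : FinitePlace.mk v x ≤ 1) :
    v.valuation K x ≤ 1 := by
  rw [mk_eq] at h
  exact (WithZeroMulInt.toNNReal_le_one_iff (HeightOneSpectrum.one_lt_absNorm_nnreal v)).1
    (by exact_mod_cast h)

theorem mk_pow_le {v : HeightOneSpectrum (𝓞 K)} {x : 𝓞 K} {t : ℕ} (h : x ∈ v.asIdeal ^ t) :
    FinitePlace.mk v (algebraMap (𝓞 K) K x) ≤ ((Ideal.absNorm v.asIdeal : ℝ) ^ t)⁻¹ := by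
  rw [← v.intValuation_le_pow_iff_mem] at h
  rw [mk_eq, v.valuation_of_algebraMap]
  have h1 := (WithZeroMulInt.toNNReal_strictMono
    (HeightOneSpectrum.one_lt_absNorm_nnreal v)).monotone h
  have h2 : (WithZeroMulInt.toNNReal (HeightOneSpectrum.absNorm_ne_zero v)
      (WithZero.exp (-(t : ℤ))) : NNReal) = ((Ideal.absNorm v.asIdeal : NNReal) ^ t)⁻¹ := by
    have e : (WithZero.exp (-(t : ℤ)) : WithZero (Multiplicative ℤ)) =
      ((Multiplicative.ofAdd (-(t : ℤ)) : Multiplicative ℤ) : WithZero (Multiplicative ℤ)) := rfl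
    rw [e, WithZeroMulInt.toNNReal_neg_apply _ WithZero.coe_ne_zero, WithZero.unzero_coe,
      toAdd_ofAdd, zpow_neg, zpow_natCast]
  have h3 : (WithZeroMulInt.toNNReal (HeightOneSpectrum.absNorm_ne_zero v)
      (v.intValuation x) : NNReal) ≤ ((Ideal.absNorm v.asIdeal : NNReal) ^ t)⁻¹ := by
    rw [← h2]
    exact h1
  exact_mod_cast h3

end

section

variable {K L : Type} [Field K] [NumberField K] [Field L] [NumberField L] [Algebra K L]

theorem coeAlg (s : 𝓞 K) : algebraMap (𝓞 L) L (algebraMap (𝓞 K) (𝓞 L) s) =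
    algebraMap K L (algebraMap (𝓞 K) K s) := by
  rw [← IsScalarTower.algebraMap_apply (𝓞 K) K L, IsScalarTower.algebraMap_apply (𝓞 K) (𝓞 L) L]

/-- the denominators of `ζ` -/
def den (ζ : L) : Ideal (𝓞 L) where
  carrier := {a | ∃ b : 𝓞 L, algebraMap (𝓞 L) L a * ζ = algebraMap (𝓞 L) L b}
  add_mem' := by
    rintro a a' ⟨b, hb⟩ ⟨b', hb'⟩
    exact ⟨b + b', by rw [map_add, map_add, add_mul, hb, hb']⟩
  zero_mem' := ⟨0, by simp⟩
  smul_mem' := by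
    rintro c a ⟨b, hb⟩
    exact ⟨c * b, by rw [smul_eq_mul, map_mul, map_mul, mul_assoc, hb]⟩

/-- a denominator prime to `v` -/
theorem exists_den {v : HeightOneSpectrum (𝓞 K)} {ζ : L}
    (h : ∀ w : HeightOneSpectrum (𝓞 L), v.asIdeal.map (algebraMap (𝓞 K) (𝓞 L)) ≤ w.asIdeal →
      FinitePlace.mk w ζ ≤ 1) :
    ∃ d : 𝓞 K, d ∉ v.asIdeal ∧ ∃ η : 𝓞 L,
      algebraMap (𝓞 L) L (algebraMap (𝓞 K) (𝓞 L) d) * ζ = algebraMap (𝓞 L) L η := by
  by_contra hcon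
  have h1 : (den ζ).comap (algebraMap (𝓞 K) (𝓞 L)) ≤ v.asIdeal := by
    intro d hd
    by_contra hdv
    exact hcon ⟨d, hdv, hd⟩
  have := v.isPrime
  obtain ⟨Q, hQ, hQp, hQv⟩ := Ideal.exists_ideal_over_prime_of_isIntegral v.asIdeal (den ζ) h1
  have hQ0 : Q ≠ ⊥ := by
    rintro rfl
    apply v.ne_bot
    rw [← hQv, ← RingHom.ker_eq_comap_bot, RingHom.ker_eq_bot_iff_eq_zero]
    intro x hx
    rwa [FaithfulSMul.algebraMap_eq_zero_iff] at hx
  let w : HeightOneSpectrum (𝓞 L) := ⟨Q, hQp, hQ0⟩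
  have h2 := val_le_one (h w (by
    rw [Ideal.map_le_iff_le_comap]
    exact hQv.ge))
  obtain ⟨n, d, hnd⟩ := w.exists_primeCompl_mul_eq_of_integer ζ h2
  apply d.2
  apply hQ
  exact ⟨n, by rw [mul_comm]; exact hnd⟩

end

/-- **AC/RAM** -/
theorem ram : Pool.Agent.N753.AC.StmRAM := by
  intro K L _ _ _ _ _ v W ζ s hw hnorm
  classical
  have hinj : Function.Injective (algebraMap (𝓞 K) (𝓞 L)) :=
    FaithfulSMul.algebraMap_injective (𝓞 K) (𝓞 L)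
  have hvp := v.isPrime
  have hvm : v.asIdeal.IsMaximal := v.isMaximal
  obtain ⟨P, hP⟩ : ∃ P : Ideal (𝓞 L), P = v.asIdeal.map (algebraMap (𝓞 K) (𝓞 L)) := ⟨_, rfl⟩
  have hPne : P ≠ ⊥ := by
    rw [hP, Ne, Ideal.map_eq_bot_iff_of_injective hinj]
    exact v.ne_bot
  obtain ⟨s', hs⟩ : ∃ s' : Finset (Ideal (𝓞 L)), s' = (normalizedFactors P).toFinset := ⟨_, rfl⟩
  obtain ⟨e, he⟩ : ∃ e : Ideal (𝓞 L) → ℕ, e = fun 𝔮 => (normalizedFactors P).count 𝔮 := ⟨_, rfl⟩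
  have hprod : ∏ 𝔮 ∈ s', 𝔮 ^ e 𝔮 = P := by
    rw [hs, he, ← Finset.prod_multiset_count]
    exact Ideal.prod_normalizedFactors_eq_self hPne
  have hprime : ∀ 𝔮 ∈ s', _root_.Prime 𝔮 := fun 𝔮 h𝔮 => by
    rw [hs] at h𝔮
    exact prime_of_normalized_factor 𝔮 (Multiset.mem_toFinset.mp h𝔮)
  have hne : ∀ 𝔮 ∈ s', 𝔮 ≠ ⊥ := fun 𝔮 h𝔮 => (hprime 𝔮 h𝔮).ne_zero
  have hpr : ∀ 𝔮 ∈ s', 𝔮.IsPrime := fun 𝔮 h𝔮 => Ideal.isPrime_of_prime (hprime 𝔮 h𝔮)
  have hmx : ∀ 𝔮 ∈ s', 𝔮.IsMaximal := fun 𝔮 h𝔮 => (hpr 𝔮 h𝔮).isMaximal (hne 𝔮 h𝔮)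
  have hdvd : ∀ 𝔮 ∈ s', 𝔮 ^ e 𝔮 ∣ P := fun 𝔮 h𝔮 => by
    rw [← hprod]; exact Finset.dvd_prod_of_mem (fun 𝔮 => 𝔮 ^ e 𝔮) h𝔮
  have hPle : ∀ 𝔮 ∈ s', P ≤ 𝔮 := fun 𝔮 h𝔮 => by
    rw [hs] at h𝔮
    exact Ideal.dvd_iff_le.mp (dvd_of_mem_normalizedFactors (Multiset.mem_toFinset.mp h𝔮))
  have he1 : ∀ 𝔮 ∈ s', 1 ≤ e 𝔮 := fun 𝔮 h𝔮 => by
    rw [hs] at h𝔮
    rw [he]
    exact Multiset.count_pos.mpr (Multiset.mem_toFinset.mp h𝔮)
  obtain ⟨J, hJ⟩ : ∃ J : Ideal (𝓞 L), J = ∏ 𝔮 ∈ s', 𝔮 ^ (e 𝔮 - 1) := ⟨_, rfl⟩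
  obtain ⟨I, hI⟩ : ∃ I : Ideal (𝓞 L), I = ∏ 𝔮 ∈ s', 𝔮 := ⟨_, rfl⟩
  have hJI : J * I = P := by
    rw [hJ, hI, ← Finset.prod_mul_distrib, ← hprod]
    refine Finset.prod_congr rfl fun 𝔮 h𝔮 => ?_
    rw [← pow_succ, Nat.sub_add_cancel (he1 𝔮 h𝔮)]
  have hJd : J ∣ differentIdeal (𝓞 K) (𝓞 L) := by
    rw [hJ]
    refine Finset.prod_dvd_of_coprime ?_ ?_
    · intro 𝔮 h𝔮 𝔯 h𝔯 hne'
      have := hmx 𝔮 h𝔮
      have := hmx 𝔯 h𝔯
      exact (Ideal.isCoprime_of_isMaximal hne').pow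
    · intro 𝔮 h𝔮
      refine pow_sub_one_dvd_differentIdeal (𝓞 K) 𝔮 (e 𝔮) (p := v.asIdeal) v.ne_bot ?_
      rw [← hP]
      exact hdvd 𝔮 h𝔮
  have hJne : J ≠ ⊥ := by
    intro h0
    apply hPne
    rw [← hJI, h0, Ideal.bot_mul]
  have hIne : I ≠ ⊥ := by
    intro h0
    apply hPne
    rw [← hJI, h0, Ideal.mul_bot]
  -- the norms
  have hfr : Module.finrank (𝓞 K) (𝓞 L) = Module.finrank K L :=
    (IsFractionRing.finrank_eq (𝓞 K) K (𝓞 L) L).symm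
  have hN := Ideal.absNorm_algebraMap (𝓞 K) (𝓞 L) v.asIdeal
  rw [hfr, ← hP, ← hJI, map_mul] at hN
  -- the splitting of `I`
  obtain ⟨W', hW'⟩ : ∃ W' : Finset (Ideal (𝓞 L)), W' = W.image fun w => w.asIdeal := ⟨_, rfl⟩
  obtain ⟨I0, hI0⟩ : ∃ I0 : Ideal (𝓞 L), I0 = ∏ 𝔮 ∈ s' \ W', 𝔮 := ⟨_, rfl⟩
  obtain ⟨I1, hI1⟩ : ∃ I1 : Ideal (𝓞 L), I1 = ∏ 𝔮 ∈ s' ∩ W', 𝔮 := ⟨_, rfl⟩
  have hI01 : I1 * I0 = I := by
    rw [hI, hI0, hI1]
    exact Finset.prod_inter_mul_prod_sdiff s' W' _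
  -- the integer `η`
  obtain ⟨d, hd, η, hη⟩ := exists_den (v := v) (ζ := ζ) fun w h => (hw w h).1
  have hI0η : I0 ∣ Ideal.span {η} := by
    rw [hI0]
    refine Finset.prod_dvd_of_coprime ?_ ?_
    · intro 𝔮 h𝔮 𝔯 h𝔯 hne'
      have := hmx 𝔮 (Finset.mem_sdiff.1 h𝔮).1
      have := hmx 𝔯 (Finset.mem_sdiff.1 h𝔯).1
      exact Ideal.isCoprime_of_isMaximal hne'
    · intro 𝔮 h𝔮
      obtain ⟨h1, h2⟩ := Finset.mem_sdiff.1 h𝔮
      rw [Ideal.dvd_iff_le, Ideal.span_singleton_le_iff_mem]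
      let w : HeightOneSpectrum (𝓞 L) := ⟨𝔮, hpr 𝔮 h1, hne 𝔮 h1⟩
      have hwW : w ∉ W := by
        intro hwW
        apply h2
        rw [hW']
        exact Finset.mem_image.2 ⟨w, hwW, rfl⟩
      have h3 := (hw w (by rw [← hP]; exact hPle 𝔮 h1)).2 hwW
      have h4 : FinitePlace.mk w (algebraMap (𝓞 L) L η) < 1 := by
        rw [← hη, map_mul]
        have h5 : FinitePlace.mk w (algebraMap (𝓞 L) L (algebraMap (𝓞 K) (𝓞 L) d)) ≤ 1 := by
          rw [FinitePlace.mk_apply]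
          exact FinitePlace.norm_le_one L w _
        have h6 : 0 ≤ FinitePlace.mk w ζ := apply_nonneg _ _
        have h7 : 0 ≤ FinitePlace.mk w (algebraMap (𝓞 L) L (algebraMap (𝓞 K) (𝓞 L) d)) :=
          apply_nonneg _ _
        nlinarith
      rw [FinitePlace.mk_apply] at h4
      exact (FinitePlace.norm_lt_one_iff_mem L w η).1 h4
  -- the relative norm
  have hI0P : I0 ∣ P := by
    rw [← hJI, ← hI01]
    exact Dvd.dvd.mul_left (Dvd.intro_left _ rfl) _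
  have hr1 : Ideal.relNorm (𝓞 K) I0 ∣ v.asIdeal ^ Module.finrank K L := by
    have h1 := map_dvd (Ideal.relNorm (𝓞 K) (S := 𝓞 L)) hI0P
    rw [hP, Ideal.relNorm_algebraMap, hfr] at h1
    exact h1
  obtain ⟨t, -, ht⟩ := (dvd_prime_pow (Ideal.prime_of_isPrime v.ne_bot v.isPrime) _).1 hr1
  rw [associated_iff_eq] at ht
  have hI0n : Ideal.absNorm I0 = Ideal.absNorm v.asIdeal ^ t := by
    rw [← Ideal.absNorm_relNorm (𝓞 K) (𝓞 L) I0, ht, map_pow]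
  have hNv : (1 : ℝ) < Ideal.absNorm v.asIdeal := by
    exact_mod_cast HeightOneSpectrum.one_lt_absNorm v
  have hts : t ≤ s := by
    have h1 := map_dvd (Ideal.relNorm (𝓞 K) (S := 𝓞 L)) hI0η
    rw [ht, Ideal.relNorm_singleton, Ideal.dvd_iff_le, Ideal.span_singleton_le_iff_mem] at h1
    have h2 := mk_pow_le h1
    rw [Algebra.algebraMap_intNorm (L := L), ← hη, map_mul, coeAlg, Algebra.norm_algebraMap,
      map_mul, map_pow] at h2
    have h3 : FinitePlace.mk v (algebraMap (𝓞 K) K d) = 1 := by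
      rw [FinitePlace.mk_apply]
      exact (FinitePlace.norm_eq_one_iff_notMem K v d).2 hd
    rw [h3, one_pow, one_mul] at h2
    have h4 := hnorm.trans h2
    by_contra hcon
    have h5 : (Ideal.absNorm v.asIdeal : ℝ) ^ s < (Ideal.absNorm v.asIdeal : ℝ) ^ t :=
      pow_lt_pow_right₀ hNv (by omega)
    have h6 : (0 : ℝ) < (Ideal.absNorm v.asIdeal : ℝ) ^ s := by positivity
    have h7 := inv_strictAnti₀ h6 h5
    linarith
  refine ⟨J, hJd, ?_, hJne, ?_⟩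
  · rw [← hP, ← hJI]
    exact Ideal.mul_le_inf.trans inf_le_left
  · have p0 : (0 : ℝ) < Ideal.absNorm J := by
      have : Ideal.absNorm J ≠ 0 := Ideal.absNorm_eq_zero_iff.not.2 hJne
      exact_mod_cast Nat.pos_of_ne_zero this
    have p1 : (0 : ℝ) < Ideal.absNorm I := by
      have : Ideal.absNorm I ≠ 0 := Ideal.absNorm_eq_zero_iff.not.2 hIne
      exact_mod_cast Nat.pos_of_ne_zero this
    have e1 : Real.log (Ideal.absNorm J) + Real.log (Ideal.absNorm I) =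
        Module.finrank K L * Real.log (Ideal.absNorm v.asIdeal) := by
      rw [← Real.log_mul p0.ne' p1.ne', ← Real.log_pow]
      congr 1
      exact_mod_cast hN
    have e2 : Real.log (Ideal.absNorm I) = Real.log (Ideal.absNorm I1) +
        t * Real.log (Ideal.absNorm v.asIdeal) := by
      have h1 : Ideal.absNorm I = Ideal.absNorm I1 * Ideal.absNorm v.asIdeal ^ t := by
        rw [← hI01, map_mul, hI0n]
      have h2 : (Ideal.absNorm I1 : ℝ) ≠ 0 := by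
        intro h0
        have h3 : Ideal.absNorm I1 = 0 := by exact_mod_cast h0
        rw [h1, h3, zero_mul] at p1
        simp at p1
      rw [h1]
      push_cast
      rw [Real.log_mul h2 (by positivity), Real.log_pow]
    have e3 : Real.log (Ideal.absNorm I1) ≤ ∑ w ∈ W, Real.log (Ideal.absNorm w.asIdeal) := by
      rw [hI1, map_prod]
      push_cast
      rw [Real.log_prod]
      · have h1 : ∑ w ∈ W, Real.log (Ideal.absNorm w.asIdeal) =
            ∑ 𝔮 ∈ W', Real.log (Ideal.absNorm 𝔮) := by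
          rw [hW', Finset.sum_image]
          intro a _ b _ hab
          exact HeightOneSpectrum.ext hab
        rw [h1]
        refine Finset.sum_le_sum_of_subset_of_nonneg Finset.inter_subset_right ?_
        intro 𝔮 _ _
        exact Real.log_natCast_nonneg _
      · intro 𝔮 h𝔮
        have h1 := hne 𝔮 (Finset.mem_inter.1 h𝔮).1
        have h2 : Ideal.absNorm 𝔮 ≠ 0 := Ideal.absNorm_eq_zero_iff.not.2 h1
        exact_mod_cast h2
    have e4 : (t : ℝ) * Real.log (Ideal.absNorm v.asIdeal) ≤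
        s * Real.log (Ideal.absNorm v.asIdeal) := by
      apply mul_le_mul_of_nonneg_right _ (Real.log_natCast_nonneg _)
      exact_mod_cast hts
    linarith

end Pool.Agent.N747.AC
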